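import Pool.Agent.P.MP_2cb329_al.ENDc

/-! A primitive recursive search for conjugators from filling and conjugator bounds, and its
transfer to an arbitrary finite generating family. -/

set_option autoImplicit false

namespace CPOR
namespace Srch

open ENDc

/-- `c` finds a conjugator exactly when there is one. -/
def Finds {X G : Type} [Group G] (π : FreeGroup X →* G)
    (c : List (X × Bool) × List (X × Bool) → Option (List (X × Bool))) : Prop :=
  ∀ u v : List (X × Bool),
    (c (u, v) = none ↔ ¬ IsConj (π (FreeGroup.mk u)) (π (FreeGroup.mk v))) ∧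
    ∀ w, c (u, v) = some w →
      (π (FreeGroup.mk w))⁻¹ * π (FreeGroup.mk u) * π (FreeGroup.mk w) = π (FreeGroup.mk v)

theorem search_of {X : Type} [Primcodable X] [Fintype X] [DecidableEq X] {G : Type} [Group G]
    (π : FreeGroup X →* G) (hπ : Function.Surjective π) (r : FreeGroup X) (hr : π r = 1)
    (hF : Fill π r) (hC : CP π) : ∃ c, Primrec c ∧ Finds π c := by
  classical
  obtain ⟨F, hFb, hF⟩ := hF
  obtain ⟨C, hCb, hC⟩ := hC
  let A : List (X × Bool) := (Finset.univ : Finset (X × Bool)).toList
  have hA : ∀ a, a ∈ A := fun a => Finset.mem_toList.2 (Finset.mem_univ a)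
  let P := List (X × Bool) × List (X × Bool)
  let n₁ : P → ℕ := fun p => C (p.1.length + p.2.length)
  let n₂ : P → ℕ := fun p => F (n₁ p + p.1.length + n₁ p + p.2.length)
  have hl1 : Primrec fun p : P => p.1.length := Primrec.list_length.comp Primrec.fst
  have hl2 : Primrec fun p : P => p.2.length := Primrec.list_length.comp Primrec.snd
  have hn₁ : Primrec n₁ := hCb.1.comp (Primrec.nat_add.comp hl1 hl2)
  have hn₂ : Primrec n₂ := hFb.1.comp (Primrec.nat_add.comp (Primrec.nat_add.comp
    (Primrec.nat_add.comp hn₁ hl1) hn₁) hl2)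
  let tw : List (X × Bool) → P → List (X × Bool) := fun g p =>
    FreeGroup.invRev g ++ p.1 ++ g ++ FreeGroup.invRev p.2
  have htw : ∀ g p, FreeGroup.mk (tw g p) =
      (FreeGroup.mk g)⁻¹ * FreeGroup.mk p.1 * FreeGroup.mk g * (FreeGroup.mk p.2)⁻¹ := by
    intro g p
    simp only [tw, ← FreeGroup.mul_mk, ← FreeGroup.inv_mk]
  have hR : PrimrecRel fun (l : List (List (X × Bool) × Bool)) (q : List (X × Bool) × P) =>
      FreeGroup.reduce (tw q.1 q.2) = FreeGroup.reduce (wordOf r.toWord l) := by
    refine Primrec.eq.comp (primrec_reduce.comp ?_)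
      (primrec_reduce.comp ((primrec_wordOf _).comp Primrec.fst))
    have hg : Primrec fun z : List (List (X × Bool) × Bool) × List (X × Bool) × P => z.2.1 :=
      Primrec.fst.comp Primrec.snd
    have hp : Primrec fun z : List (List (X × Bool) × Bool) × List (X × Bool) × P => z.2.2 :=
      Primrec.snd.comp Primrec.snd
    exact Primrec.list_append.comp (Primrec.list_append.comp (Primrec.list_append.comp
      (primrec_invRev.comp hg) (Primrec.fst.comp hp)) hg)
      (primrec_invRev.comp (Primrec.snd.comp hp))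
  let R : List (X × Bool) → P → Prop := fun g p =>
    ∃ l ∈ allL (signed (allL A (n₂ p))) (n₂ p),
      FreeGroup.reduce (tw g p) = FreeGroup.reduce (wordOf r.toWord l)
  have hR2 : PrimrecRel R := by
    have h2 : Primrec fun q : List (X × Bool) × P => n₂ q.2 := hn₂.comp Primrec.snd
    exact (PrimrecRel.exists_mem_list hR).comp (primrec_allL.comp
      (primrec_signed.comp (primrec_allL.comp (Primrec.const A) h2)) h2) Primrec.id
  have sound : ∀ g p, R g p →
      (π (FreeGroup.mk g))⁻¹ * π (FreeGroup.mk p.1) * π (FreeGroup.mk g) =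
        π (FreeGroup.mk p.2) := by
    rintro g p ⟨l, -, h⟩
    have h1 : FreeGroup.mk (tw g p) = FreeGroup.mk (wordOf r.toWord l) :=
      FreeGroup.reduce.exact h
    have h2 : π (FreeGroup.mk (wordOf r.toWord l)) = 1 := by
      rw [mk_wordOf, map_list_prod]
      refine List.prod_eq_one fun x hx => ?_
      simp only [List.map_map, List.mem_map, Function.comp] at hx
      obtain ⟨q, -, rfl⟩ := hx
      split_ifs <;>
        simp only [FreeGroup.mk_toWord, map_mul, map_inv, hr, inv_one, mul_one, mul_inv_cancel]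
    rw [← h1, htw] at h2
    simp only [map_mul, map_inv] at h2
    exact mul_inv_eq_one.1 h2
  have complete : ∀ p : P, IsConj (π (FreeGroup.mk p.1)) (π (FreeGroup.mk p.2)) →
      ∃ g ∈ allL A (n₁ p), R g p := by
    intro p h
    obtain ⟨c, hc⟩ := isConj_iff.1 h
    obtain ⟨g', hg', hlen⟩ := hC (π (FreeGroup.mk p.1)) (π (FreeGroup.mk p.2)) c⁻¹
      (by rw [inv_inv]; exact hc)
    obtain ⟨f, rfl, hf⟩ := exists_len hπ g'
    have hf1 : f.norm ≤ n₁ p := by
      rw [hf]
      exact hlen.trans (hCb.mono (Nat.add_le_add ((len_le _).trans FreeGroup.norm_mk_le)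
        ((len_le _).trans FreeGroup.norm_mk_le)))
    have h1 : π (FreeGroup.mk (tw f.toWord p)) = 1 := by
      rw [htw, FreeGroup.mk_toWord]
      simp only [map_mul, map_inv]
      rw [hg', mul_inv_cancel]
    obtain ⟨l, hl, hl', he⟩ := hF _ h1
    have hb : F (FreeGroup.mk (tw f.toWord p)).norm ≤ n₂ p := by
      refine hFb.mono (FreeGroup.norm_mk_le.trans ?_)
      have : f.toWord.length = f.norm := rfl
      simp only [tw, List.length_append, FreeGroup.invRev_length]
      omega
    refine ⟨f.toWord, mem_allL _ _ _ hf1 fun a _ => hA a,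
      l.map fun q => (q.1.toWord, q.2), mem_allL _ _ _ ?_ ?_, ?_⟩
    · rw [List.length_map]; exact hl.trans hb
    · intro a ha
      obtain ⟨q, hq, rfl⟩ := List.mem_map.1 ha
      exact mem_signed (mem_allL _ _ _ ((hl' q hq).trans hb) fun a _ => hA a) _
    · refine FreeGroup.reduce.sound ?_
      rw [he, mk_wordOf, List.map_map]
      simp only [Function.comp_def, FreeGroup.mk_toWord]
  refine ⟨fun p : P => ((allL A (n₁ p)).filter fun g => R g p).head?, ?_, fun u v => ⟨?_, ?_⟩⟩
  · exact Primrec.list_head?.comp ((PrimrecRel.listFilter hR2).comp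
      (primrec_allL.comp (Primrec.const A) hn₁) Primrec.id)
  · rw [List.head?_eq_none_iff, List.filter_eq_nil_iff]
    constructor
    · intro h hc
      obtain ⟨g, hg, hR⟩ := complete (u, v) hc
      exact h g hg (decide_eq_true hR)
    · intro h g _ hg
      refine h (isConj_iff.2 ⟨(π (FreeGroup.mk g))⁻¹, ?_⟩)
      rw [inv_inv]
      exact sound g (u, v) (of_decide_eq_true hg)
  · intro w hw
    have hm := List.mem_of_mem_head? (Option.mem_def.2 hw)
    exact sound w (u, v) (of_decide_eq_true (List.mem_filter.1 hm).2)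

/-- Letterwise substitution of words. -/
theorem exists_sub {X Y G : Type} [Group G] (π : FreeGroup X →* G) (hπ : Function.Surjective π)
    (σ : FreeGroup Y →* G) : ∃ a : Y × Bool → List (X × Bool),
      ∀ l : List (Y × Bool), π (FreeGroup.mk (l.flatMap a)) = σ (FreeGroup.mk l) := by
  have h : ∀ y : Y × Bool, ∃ w : List (X × Bool), π (FreeGroup.mk w) = σ (FreeGroup.mk [y]) := by
    intro y
    obtain ⟨f, hf⟩ := hπ (σ (FreeGroup.mk [y]))
    obtain ⟨w⟩ := f
    exact ⟨w, hf⟩
  choose a ha using h
  refine ⟨a, fun l => ?_⟩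
  induction l with
  | nil => rw [List.flatMap_nil, ← FreeGroup.one_eq_mk, ← FreeGroup.one_eq_mk, map_one, map_one]
  | cons y l ih =>
    have hm : FreeGroup.mk (y :: l) = FreeGroup.mk [y] * FreeGroup.mk l := by
      rw [FreeGroup.mul_mk]; rfl
    rw [List.flatMap_cons, ← FreeGroup.mul_mk, map_mul, ih, ha, hm, map_mul]

theorem transfer {X Y G : Type} [Primcodable X] [Primcodable Y] [Finite X] [Finite Y] [Group G]
    (π : FreeGroup X →* G) (hπ : Function.Surjective π) (σ : FreeGroup Y →* G)
    (hσ : Function.Surjective σ) (h : ∃ c, Primrec c ∧ Finds π c) :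
    ∃ c, Primrec c ∧ Finds σ c := by
  obtain ⟨c, hc, hf⟩ := h
  obtain ⟨a, ha⟩ := exists_sub π hπ σ
  obtain ⟨b, hb⟩ := exists_sub σ hσ π
  have pa : Primrec fun l : List (Y × Bool) => l.flatMap a :=
    Primrec.list_flatMap Primrec.id ((Primrec.dom_finite a).comp Primrec.snd).to₂
  have pb : Primrec fun l : List (X × Bool) => l.flatMap b :=
    Primrec.list_flatMap Primrec.id ((Primrec.dom_finite b).comp Primrec.snd).to₂
  refine ⟨fun p => (c (p.1.flatMap a, p.2.flatMap a)).map fun l => l.flatMap b, ?_,
    fun u v => ⟨?_, ?_⟩⟩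
  · exact (Primrec.option_map₁ pb).comp
      (hc.comp (Primrec.pair (pa.comp Primrec.fst) (pa.comp Primrec.snd)))
  · rw [Option.map_eq_none_iff, (hf _ _).1, ha, ha]
  · intro w hw
    obtain ⟨w', hw', rfl⟩ := Option.map_eq_some_iff.1 hw
    have := (hf _ _).2 w' hw'
    rwa [ha, ha, ← hb] at this

end Srch
end CPOR
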